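import Pool.Agent.W599.DSN.Stm

set_option autoImplicit false

/-!
Project DSN (MP_ac1f36_co), part SUP: superlinear Davenport-Schinzel words of order 3 from the
properties of the substitution `sub`.
-/

namespace Pool.Agent.W53.DsnSup

open Pool.Agent.W599.DSN

/-- Claim A -/
def CA (j : ℕ) : Prop := ∀ m : ℕ, 1 ≤ m →
  ∃ (A : Type) (T : FW A), Ok m T ∧ 0 < nf T ∧ j * m * nf T ≤ 2 * (ex T).length

/-- Claim B -/
def CB (j m : ℕ) : Prop :=
  ∃ (A : Type) (T : FW A), Ok m T ∧ 0 < nf T ∧
    nf T * (m * (j + 2)) ≤ 2 * (ex T).length + 2 * nf T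

theorem freeL_nodup {A : Type} (u : List A) (h : u.Nodup) : FreeL u := by
  intro a b _ hs
  have := hs.nodup h
  simp at this

theorem ca_zero : CA 0 := by
  intro m _
  refine ⟨ℕ, [Sum.inr (List.range m)], ⟨?_, ?_, ?_, ?_, ?_⟩, ?_, ?_⟩
  · intro v hv
    simp only [List.mem_singleton, Sum.inr.injEq] at hv
    subst hv
    simp
  · intro a ha
    refine ⟨List.range m, by simp, ?_⟩
    simpa [ex] using ha
  · intro T₁ v T₂ h
    cases T₁ with
    | nil =>
      simp only [List.nil_append, List.cons.injEq, Sum.inr.injEq] at h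
      obtain ⟨h, -⟩ := h
      subst h
      exact ⟨List.nodup_range, by simp [ex]⟩
    | cons x T₁ =>
      simp at h
  · simp only [ex, List.append_nil, AdjL]
    exact List.Pairwise.isChain (List.nodup_range)
  · simp only [ex, List.append_nil]
    exact freeL_nodup _ List.nodup_range
  · simp [nf]
  · simp

/-- all the fan letters -/
def fans {A : Type} : FW A → List A
  | [] => []
  | Sum.inl _ :: T => fans T
  | Sum.inr v :: T => v ++ fans T

theorem fans_length {A : Type} (m : ℕ) : ∀ (T : FW A), FanLen m T → (fans T).length = m * nf T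
  | [], _ => by simp [fans, nf]
  | Sum.inl a :: T, h => by
    simp only [fans, nf]
    exact fans_length m T (fun v hv => h v (List.mem_cons_of_mem _ hv))
  | Sum.inr v :: T, h => by
    simp only [fans, nf, List.length_append]
    rw [fans_length m T (fun v hv => h v (List.mem_cons_of_mem _ hv)), h v (by simp)]
    ring

theorem mem_fans {A : Type} : ∀ (T : FW A) (v : List A) (a : A), Sum.inr v ∈ T → a ∈ v → a ∈ fans T
  | [], v, a, h, _ => by simp at h
  | Sum.inl b :: T, v, a, h, ha => by
    simp only [fans]
    refine mem_fans T v a ?_ ha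
    simpa using h
  | Sum.inr w :: T, v, a, h, ha => by
    simp only [fans, List.mem_append]
    simp only [List.mem_cons, Sum.inr.injEq] at h
    rcases h with h | h
    · left; rw [← h]; exact ha
    · right; exact mem_fans T v a h ha

open Classical in
theorem card_letters {A : Type} (m : ℕ) (T : FW A) (h : FanLen m T) (h' : InFan T) :
    (ex T).toFinset.card ≤ m * nf T := by
  rw [← fans_length m T h]
  refine le_trans (Finset.card_le_card ?_) (List.toFinset_card_le (fans T))
  intro a ha
  rw [List.mem_toFinset] at ha ⊢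
  obtain ⟨v, hv, hav⟩ := h' a ha
  exact mem_fans T v a hv hav

open Classical in
/-- fans of length one at the first occurrences -/
noncomputable def onef {A : Type} : List A → List A → FW A
  | _, [] => []
  | seen, a :: u => if a ∈ seen then Sum.inl a :: onef seen u else Sum.inr [a] :: onef (a :: seen) u

theorem ex_onef {A : Type} : ∀ (u seen : List A), ex (onef seen u) = u
  | [], seen => by simp [onef, ex]
  | a :: u, seen => by
    rw [onef]
    split_ifs with h
    · simp only [ex]; rw [ex_onef u seen]
    · simp only [ex]; rw [ex_onef u (a :: seen)]; rfl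

open Classical in
theorem nf_onef {A : Type} : ∀ (u seen : List A),
    nf (onef seen u) = (u.toFinset \ seen.toFinset).card
  | [], seen => by simp [onef, nf]
  | a :: u, seen => by
    rw [onef]
    split_ifs with h
    · simp only [nf]; rw [nf_onef u seen]
      congr 1
      ext x
      simp only [Finset.mem_sdiff, List.mem_toFinset, List.mem_cons]
      constructor
      · rintro ⟨h1, h2⟩; exact ⟨Or.inr h1, h2⟩
      · rintro ⟨h1 | h1, h2⟩
        · subst h1; exact absurd h h2
        · exact ⟨h1, h2⟩
    · simp only [nf]; rw [nf_onef u (a :: seen)]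
      have : (a :: u).toFinset \ seen.toFinset
          = insert a (u.toFinset \ (a :: seen).toFinset) := by
        ext x
        simp only [Finset.mem_sdiff, List.mem_toFinset, List.mem_cons, Finset.mem_insert]
        constructor
        · rintro ⟨h1, h2⟩
          by_cases hx : x = a
          · exact Or.inl hx
          · refine Or.inr ⟨?_, ?_⟩
            · rcases h1 with h1 | h1
              · exact absurd h1 hx
              · exact h1
            · rintro (h3 | h3)
              · exact hx h3
              · exact h2 h3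
        · rintro (h1 | ⟨h1, h2⟩)
          · subst h1; exact ⟨Or.inl rfl, h⟩
          · exact ⟨Or.inr h1, fun h3 => h2 (Or.inr h3)⟩
      rw [this, Finset.card_insert_of_notMem]
      simp

theorem fanLen_onef {A : Type} : ∀ (u seen : List A), FanLen 1 (onef seen u)
  | [], seen => by intro v hv; simp [onef] at hv
  | a :: u, seen => by
    intro v hv
    rw [onef] at hv
    split_ifs at hv with h
    · simp only [List.mem_cons, reduceCtorEq, false_or] at hv
      exact fanLen_onef u seen v hv
    · simp only [List.mem_cons, Sum.inr.injEq] at hv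
      rcases hv with hv | hv
      · rw [hv]; rfl
      · exact fanLen_onef u _ v hv

theorem inFan_onef {A : Type} : ∀ (u seen : List A) (a : A), a ∈ u →
    a ∈ seen ∨ ∃ v, Sum.inr v ∈ onef seen u ∧ a ∈ v
  | [], seen, a, h => by simp at h
  | b :: u, seen, a, h => by
    rw [onef]
    split_ifs with hb
    · by_cases hab : a = b
      · left; rw [hab]; exact hb
      · have hu : a ∈ u := by
          simp only [List.mem_cons] at h
          rcases h with h | h
          · exact absurd h hab
          · exact h
        rcases inFan_onef u seen a hu with h1 | ⟨v, hv, hav⟩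
        · exact Or.inl h1
        · exact Or.inr ⟨v, List.mem_cons_of_mem _ hv, hav⟩
    · by_cases hab : a = b
      · right
        exact ⟨[b], by simp, by simp [hab]⟩
      · have hu : a ∈ u := by
          simp only [List.mem_cons] at h
          rcases h with h | h
          · exact absurd h hab
          · exact h
        rcases inFan_onef u (b :: seen) a hu with h1 | ⟨v, hv, hav⟩
        · simp only [List.mem_cons] at h1
          rcases h1 with h1 | h1
          · exact absurd h1 hab
          · exact Or.inl h1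
        · exact Or.inr ⟨v, List.mem_cons_of_mem _ hv, hav⟩

theorem first_onef {A : Type} : ∀ (u seen : List A) (T₁ : FW A) (v : List A) (T₂ : FW A),
    onef seen u = T₁ ++ Sum.inr v :: T₂ → v.Nodup ∧ ∀ a ∈ v, a ∉ ex T₁ ∧ a ∉ seen
  | [], seen, T₁, v, T₂, h => by
    simp [onef] at h
  | b :: u, seen, T₁, v, T₂, h => by
    rw [onef] at h
    split_ifs at h with hb
    · cases T₁ with
      | nil => simp at h
      | cons x T₁ =>
        simp only [List.cons_append, List.cons.injEq] at h
        obtain ⟨h1, h2⟩ := h
        obtain ⟨h3, h4⟩ := first_onef u seen T₁ v T₂ h2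
        refine ⟨h3, ?_⟩
        intro a ha
        obtain ⟨h5, h6⟩ := h4 a ha
        refine ⟨?_, h6⟩
        rw [← h1]
        simp only [ex, List.mem_cons, not_or]
        refine ⟨?_, h5⟩
        rintro rfl
        exact h6 hb
    · cases T₁ with
      | nil =>
        simp only [List.nil_append, List.cons.injEq, Sum.inr.injEq] at h
        obtain ⟨h1, h2⟩ := h
        rw [← h1]
        refine ⟨by simp, ?_⟩
        intro a ha
        simp only [List.mem_singleton] at ha
        rw [ha]
        exact ⟨by simp [ex], hb⟩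
      | cons x T₁ =>
        simp only [List.cons_append, List.cons.injEq] at h
        obtain ⟨h1, h2⟩ := h
        obtain ⟨h3, h4⟩ := first_onef u (b :: seen) T₁ v T₂ h2
        refine ⟨h3, ?_⟩
        intro a ha
        obtain ⟨h5, h6⟩ := h4 a ha
        simp only [List.mem_cons, not_or] at h6
        refine ⟨?_, h6.2⟩
        rw [← h1]
        simp only [ex, List.mem_append, List.mem_singleton, not_or]
        exact ⟨h6.1, h5⟩

theorem ok_onef {A : Type} (u : List A) (h1 : AdjL u) (h2 : FreeL u) : Ok 1 (onef [] u) := by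
  refine ⟨fanLen_onef u [], ?_, ?_, ?_, ?_⟩
  · intro a ha
    rw [ex_onef] at ha
    rcases inFan_onef u [] a ha with h | h
    · simp at h
    · exact h
  · intro T₁ v T₂ h
    obtain ⟨h3, h4⟩ := first_onef u [] T₁ v T₂ h
    exact ⟨h3, fun a ha => (h4 a ha).1⟩
  · rw [ex_onef]; exact h1
  · rw [ex_onef]; exact h2

section
variable (h1 : STL) (h2 : STF) (h3 : STA) (h4 : STR)
include h1 h2 h3 h4

theorem cb_succ (j : ℕ) (hj : CA j) (m : ℕ) (hm : 1 ≤ m) (hB : CB j m) : CB j (m + 1) := by
  obtain ⟨Y, T2, ok2, pos2, le2⟩ := hB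
  obtain ⟨X, T1, ok1, pos1, le1⟩ := hj (nf T2) pos2
  obtain ⟨l1, l2, l3, l4⟩ := h1 X Y m T1 T2 hm ok1.1 ok1.2.1 ok2.1 ok2.2.1
  refine ⟨_, sub T2 T1, ⟨l1, l2, h2 X Y m T1 T2 hm ok1 ok2 pos2, h3 X Y m T1 T2 hm ok1 ok2 pos2,
    h4 X Y m T1 T2 hm ok1 ok2 pos2⟩, ?_, ?_⟩
  · rw [l3]; exact Nat.mul_pos pos1 pos2
  · rw [l3, l4]
    have e1 := Nat.mul_le_mul_left (nf T1) le2
    nlinarith [e1, le1]

theorem cb_all (j : ℕ) (hj : CA j) : ∀ m : ℕ, 1 ≤ m → CB j m := by
  intro m hm
  induction m, hm using Nat.le_induction with
  | base =>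
    obtain ⟨A, T, ok, pos, le⟩ := hj 1 le_rfl
    refine ⟨A, T, ok, pos, ?_⟩
    nlinarith
  | succ m hm ih => exact cb_succ h1 h2 h3 h4 j hj m hm ih

theorem ca_succ (j : ℕ) (hj : CA j) : CA (j + 1) := by
  intro m hm
  rcases Nat.lt_or_ge 1 m with hm2 | hm1
  · obtain ⟨A, T, ok, pos, le⟩ := cb_all h1 h2 h3 h4 j hj m hm
    refine ⟨A, T, ok, pos, ?_⟩
    have e : 2 * nf T ≤ m * nf T := Nat.mul_le_mul_right _ hm2
    nlinarith
  · have hm' : m = 1 := le_antisymm hm1 hm
    subst hm'
    classical
    obtain ⟨A, T, ok, pos, le⟩ := cb_all h1 h2 h3 h4 j hj 2 (by norm_num)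
    have hc := card_letters 2 T ok.1 ok.2.1
    have hn : nf (onef [] (ex T)) = (ex T).toFinset.card := by
      rw [nf_onef]; simp
    refine ⟨A, onef [] (ex T), ok_onef _ ok.2.2.2.1 ok.2.2.2.2, ?_, ?_⟩
    · rw [hn, Finset.card_pos]
      have hL : 0 < (ex T).length := by nlinarith
      obtain ⟨a, ha⟩ := List.exists_mem_of_length_pos hL
      exact ⟨a, by simpa using ha⟩
    · rw [ex_onef, hn]
      have e2 : (j + 1) * (ex T).toFinset.card ≤ (j + 1) * (2 * nf T) := Nat.mul_le_mul_left _ hc
      nlinarith

theorem ca_all (j : ℕ) : CA j := by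
  induction j with
  | zero => exact ca_zero
  | succ j ih => exact ca_succ h1 h2 h3 h4 j ih

end

theorem sup (h1 : STL) (h2 : STF) (h3 : STA) (h4 : STR) : SUPER := by
  classical
  intro K
  obtain ⟨A, T, ok, pos, le⟩ := ca_all h1 h2 h3 h4 (2 * K + 1) 1 le_rfl
  have hc := card_letters 1 T ok.1 ok.2.1
  have hL : 0 < (ex T).length := by nlinarith
  set u := ex T with hu
  let U : Finset A := u.toFinset
  have hUpos : 0 < U.card := by
    rw [Finset.card_pos]
    obtain ⟨a, ha⟩ := List.exists_mem_of_length_pos hL
    exact ⟨a, by simpa [U] using ha⟩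
  have hmem : ∀ i : Fin u.length, u.get i ∈ U := fun i => by
    simp [U]
  refine ⟨U.card, u.length, fun i => U.equivFin ⟨u.get i, hmem i⟩, hUpos, ?_, ?_, ?_⟩
  · have e : K * U.card ≤ K * (1 * nf T) := Nat.mul_le_mul_left _ hc
    nlinarith
  · intro i j hij heq
    have h5 : u.IsChain (· ≠ ·) := ok.2.2.2.1
    rw [List.isChain_iff_getElem] at h5
    have hj : i.val + 1 < u.length := by rw [hij]; exact j.2
    have h6 := h5 i.val hj
    apply h6
    have h7 := U.equivFin.injective heq
    simp only [Subtype.mk.injEq, List.get_eq_getElem] at h7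
    simp only [hij]
    exact h7
  · rintro ⟨p, q, i₁, i₂, i₃, i₄, i₅, hpq, h12, h23, h34, h45, e1, e2, e3, e4, e5⟩
    have h5 := ok.2.2.2.2
    let a : A := (U.equivFin.symm p).1
    let b : A := (U.equivFin.symm q).1
    have hab : a ≠ b := by
      intro h
      apply hpq
      exact U.equivFin.symm.injective (Subtype.ext h)
    have hval : ∀ (i : Fin u.length) (p : Fin U.card), U.equivFin ⟨u.get i, hmem i⟩ = p →
        u.get i = (U.equivFin.symm p).1 := by
      intro i p h
      rw [← h]
      simp
    apply h5 a b hab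
    rw [List.sublist_iff_exists_fin_orderEmbedding_get_eq]
    have hmono : StrictMono (![i₁, i₂, i₃, i₄, i₅] : Fin 5 → Fin u.length) := by
      rw [Fin.strictMono_iff_lt_succ]
      intro i
      fin_cases i
      · exact h12
      · exact h23
      · exact h34
      · exact h45
    refine ⟨OrderEmbedding.ofStrictMono (![i₁, i₂, i₃, i₄, i₅] : Fin 5 → Fin u.length) hmono, ?_⟩
    intro ix
    change Fin 5 at ix
    fin_cases ix
    · exact (hval i₁ p e1).symm
    · exact (hval i₂ q e2).symm
    · exact (hval i₃ p e3).symm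
    · exact (hval i₄ q e4).symm
    · exact (hval i₅ p e5).symm

end Pool.Agent.W53.DsnSup
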