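import Pool.Agent.W527.CL.Stm

set_option autoImplicit false

/-!
Project CL (MP_7de521_nt), part LINE: the closure of a non-discrete subgroup contains a line.
-/

namespace Pool.Agent.W53.CLLINE

open Filter Topology

theorem t_LINE : Pool.Agent.W527.CL.S_LINE := by
  intro E _ _ _ H hH
  have hpos : ∀ n : ℕ, (0 : ℝ) < 1 / ((n : ℝ) + 1) := fun n => Nat.one_div_pos_of_nat
  choose x hxH hx0 hxn using fun n : ℕ => hH (1 / ((n : ℝ) + 1)) (hpos n)
  have hn0 : ∀ n, 0 < ‖x n‖ := fun n => norm_pos_iff.2 (hx0 n)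
  have hxlim : Tendsto (fun n => ‖x n‖) atTop (𝓝 0) :=
    squeeze_zero (fun n => norm_nonneg _) (fun n => (hxn n).le) tendsto_one_div_add_atTop_nhds_zero_nat
  let u : ℕ → E := fun n => (‖x n‖)⁻¹ • x n
  have hu1 : ∀ n, ‖u n‖ = 1 := by
    intro n
    simp only [u, norm_smul, norm_inv, norm_norm]
    exact inv_mul_cancel₀ (hn0 n).ne'
  have hmem : ∀ n, u n ∈ Metric.sphere (0 : E) 1 := fun n => by
    rw [mem_sphere_zero_iff_norm]; exact hu1 n
  have : ProperSpace E := FiniteDimensional.proper_real E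
  obtain ⟨v, hv, φ, hφ, hlim⟩ := (isCompact_sphere (0 : E) 1).tendsto_subseq hmem
  refine ⟨v, ?_, ?_⟩
  · intro h0
    rw [h0] at hv
    simp at hv
  · intro t
    have hl0 : Tendsto (fun n => ‖x (φ n)‖) atTop (𝓝 0) := hxlim.comp hφ.tendsto_atTop
    -- the coefficients
    have hc : Tendsto (fun n => (⌊t / ‖x (φ n)‖⌋ : ℝ) * ‖x (φ n)‖) atTop (𝓝 t) := by
      have h1 : Tendsto (fun n => (⌊t / ‖x (φ n)‖⌋ : ℝ) * ‖x (φ n)‖ - t) atTop (𝓝 0) := by
        refine squeeze_zero_norm (fun n => ?_) hl0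
        have hp := hn0 (φ n)
        have h2 : t = (t / ‖x (φ n)‖) * ‖x (φ n)‖ := by field_simp
        have h3 := Int.floor_le (t / ‖x (φ n)‖)
        have h4 := Int.lt_floor_add_one (t / ‖x (φ n)‖)
        rw [Real.norm_eq_abs, abs_le]
        constructor
        · nlinarith
        · nlinarith
      have h5 := h1.add_const t
      simpa using h5
    have hs : Tendsto (fun n => ((⌊t / ‖x (φ n)‖⌋ : ℝ) * ‖x (φ n)‖) • u (φ n)) atTop (𝓝 (t • v)) :=
      hc.smul hlim
    refine mem_closure_of_tendsto hs (Eventually.of_forall fun n => ?_)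
    have he : ((⌊t / ‖x (φ n)‖⌋ : ℝ) * ‖x (φ n)‖) • u (φ n) = ⌊t / ‖x (φ n)‖⌋ • x (φ n) := by
      simp only [u]
      rw [smul_smul, mul_assoc, mul_inv_cancel₀ (hn0 (φ n)).ne', mul_one, Int.cast_smul_eq_zsmul]
    rw [he]
    exact H.zsmul_mem (hxH (φ n)) _

end Pool.Agent.W53.CLLINE
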