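import Pool.Agent.W886.PM.Stm0

/-!
Project PM (MP_d2e5f8_lc, MP_6b9e90_lc), part BEV: computing with branching programs.
-/

set_option autoImplicit false

namespace Pool.Agent.W53.PMBEV

open Pool.Agent.NPC Pool.Agent.H620R2.Gauge Pool.Agent.H943R6.MC Pool.Agent.H622R2.Ckt
open Pool.Agent.W886.PM

theorem ans_eq (A : Oracle) (x : List Bool) (q : Lbl) : ans A x q = ansv x (A (bqn x q)) q := by
  rcases q with i | l <;> rfl

theorem vals_eq (A : Oracle) (x : List Bool) : ∀ P : BP,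
    vals A x P = bev x (P.zip ((bq x P).map A))
  | [] => rfl
  | q :: P => by
    have ih := vals_eq A x P
    change (vals A x P).getD (if ans A x q.1 = true then q.2.2 else q.2.1) false :: vals A x P = _
    rw [ans_eq, ih]
    rfl

theorem poly_item : Poly (fun p : List Bool × (Bool ⊕ ℕ) => item p.1 p.2) := by
  refine (NPQ.sumElim (o := fun p : List Bool × (Bool ⊕ ℕ) => p.2)
    (g := fun _ (b : Bool) => b) (h := fun p (j : ℕ) => p.1.getD j false)
    (Poly.snd Poly.id) (Poly.snd Poly.id)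
    (Poly.getD (Poly.fst (Poly.fst Poly.id)) (Poly.snd Poly.id)
        (NPC.Poly.const false))).congr fun a => ?_
  obtain ⟨x, b | j⟩ := a <;> rfl

theorem poly_bqn : Poly (fun p : List Bool × Lbl => bqn p.1 p.2) := by
  have h1 : Poly (fun p : (List Bool × Lbl) × List (Bool ⊕ ℕ) => p.2.map (item p.1.1)) :=
    NPC.Poly.map (F := fun (p : (List Bool × Lbl) × List (Bool ⊕ ℕ)) c => item p.1.1 c)
      (Poly.snd Poly.id)
      (Poly.comp poly_item (Poly.pair (Poly.fst (Poly.fst (Poly.fst Poly.id))) (Poly.snd Poly.id)))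
  refine (NPQ.sumElim (o := fun p : List Bool × Lbl => p.2)
    (g := fun _ (_ : ℕ) => ([] : List Bool)) (h := fun p (l : List (Bool ⊕ ℕ)) => l.map (item p.1))
    (Poly.snd Poly.id) (NPC.Poly.const _) h1).congr fun a => ?_
  obtain ⟨x, i | l⟩ := a <;> rfl

theorem poly_bq : Poly (fun p : List Bool × BP => bq p.1 p.2) :=
  NPC.Poly.map (F := fun (p : List Bool × BP) (q : Lbl × ℕ × ℕ) => bqn p.1 q.1)
    (Poly.snd Poly.id)
    (Poly.comp poly_bqn (Poly.pair (Poly.fst (Poly.fst Poly.id)) (Poly.fst (Poly.snd Poly.id))))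

theorem poly_ansv : Poly (fun p : List Bool × Bool × Lbl => ansv p.1 p.2.1 p.2.2) := by
  refine (NPQ.sumElim (o := fun p : List Bool × Bool × Lbl => p.2.2)
    (g := fun p (i : ℕ) => p.1.getD i false) (h := fun p (_ : List (Bool ⊕ ℕ)) => p.2.1)
    (Poly.snd (Poly.snd Poly.id))
    (Poly.getD (Poly.fst (Poly.fst Poly.id)) (Poly.snd Poly.id) (NPC.Poly.const false))
    (Poly.fst (Poly.snd (Poly.fst Poly.id)))).congr fun a => ?_
  obtain ⟨x, b, i | l⟩ := a <;> rfl

/-- one step of `bev` -/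
def stp (x : List Bool) (q : (Lbl × ℕ × ℕ) × Bool) (s : List Bool) : List Bool :=
  s.getD (bif ansv x q.2 q.1.1 then q.1.2.2 else q.1.2.1) false :: s

theorem bev_eq (x : List Bool) : ∀ P : List ((Lbl × ℕ × ℕ) × Bool),
    P.foldr (stp x) [false, true] = bev x P
  | [] => rfl
  | q :: P => by
    rw [List.foldr_cons, bev_eq x P]
    change _ :: _ = _ :: _
    congr 2
    cases ansv x q.2 q.1.1 <;> rfl

theorem poly_stp : Poly (fun p : (List Bool × List ((Lbl × ℕ × ℕ) × Bool)) ×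
    ((Lbl × ℕ × ℕ) × Bool) × List Bool => stp p.1.1 p.2.1 p.2.2) := by
  have eq : Poly (fun p : (List Bool × List ((Lbl × ℕ × ℕ) × Bool)) ×
      ((Lbl × ℕ × ℕ) × Bool) × List Bool => p.2.1) := Poly.fst (Poly.snd Poly.id)
  have es : Poly (fun p : (List Bool × List ((Lbl × ℕ × ℕ) × Bool)) ×
      ((Lbl × ℕ × ℕ) × Bool) × List Bool => p.2.2) := Poly.snd (Poly.snd Poly.id)
  have ex : Poly (fun p : (List Bool × List ((Lbl × ℕ × ℕ) × Bool)) ×
      ((Lbl × ℕ × ℕ) × Bool) × List Bool => p.1.1) := Poly.fst (Poly.fst Poly.id)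
  refine Poly.cons (Poly.getD es (Poly.cond ?_ (Poly.snd (Poly.snd (Poly.fst eq)))
    (Poly.fst (Poly.snd (Poly.fst eq)))) (NPC.Poly.const false)) es
  exact Poly.comp poly_ansv (Poly.pair ex (Poly.pair (Poly.snd eq) (Poly.fst (Poly.fst eq))))

theorem length_fold (x : List Bool) (P : List ((Lbl × ℕ × ℕ) × Bool)) :
    (P.foldr (stp x) [false, true]).length = P.length + 2 := by
  induction P with
  | nil => rfl
  | cons q P ih =>
    rw [List.foldr_cons, stp, List.length_cons, ih, List.length_cons]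

theorem poly_bev : Poly (fun p : List Bool × List ((Lbl × ℕ × ℕ) × Bool) => bev p.1 p.2) := by
  refine (NPC.Poly.foldr (l := fun p : List Bool × List ((Lbl × ℕ × ℕ) × Bool) => p.2)
    (s := fun _ => [false, true]) (F := fun p q s => stp p.1 q s) (Poly.snd Poly.id)
    (NPC.Poly.const _) poly_stp (Polynomial.C 4 * Polynomial.X + Polynomial.C 9) ?_).congr
      fun a => ?_
  · intro a k hk
    have h1 := sz_listBool_le ((a.2.drop k).foldr (stp a.1) [false, true])
    rw [length_fold] at h1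
    have h2 : (a.2.drop k).length ≤ a.2.length := by simp
    have h3 := length_lt_sz a.2
    have h4 : sz a.2 ≤ sz a := by
      obtain ⟨u, v⟩ := a
      simp only [sz_pair]
      omega
    refine h1.trans ?_
    simp only [Polynomial.eval_add, Polynomial.eval_mul, Polynomial.eval_C, Polynomial.eval_X]
    omega
  · exact bev_eq a.1 a.2

/-- the test for the labels -/
def lokb (n : ℕ) : Lbl → Bool
  | .inl i => decide (i < n)
  | .inr l => l.all (fun c => Sum.elim (fun _ => true) (fun i : ℕ => decide (i < n)) c)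

theorem lokb_iff (n : ℕ) (q : Lbl) : lokb n q = true ↔ LOk n q := by
  rcases q with i | l
  · simp [lokb, LOk]
  · simp only [lokb, LOk, List.all_eq_true]
    constructor
    · intro h i hi
      simpa using h _ hi
    · rintro h (b | i) hc
      · rfl
      · simpa using h i hc

theorem poly_lokb : Poly (fun p : ℕ × Lbl => lokb p.1 p.2) := by
  have h1 : Poly (fun p : ((ℕ × Lbl) × List (Bool ⊕ ℕ)) × (Bool ⊕ ℕ) =>
      Sum.elim (fun _ => true) (fun i : ℕ => decide (i < p.1.1.1)) p.2) :=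
    NPQ.sumElim (o := fun p : ((ℕ × Lbl) × List (Bool ⊕ ℕ)) × (Bool ⊕ ℕ) => p.2)
      (g := fun _ (_ : Bool) => true) (h := fun p (i : ℕ) => decide (i < p.1.1.1))
      (Poly.snd Poly.id) (NPC.Poly.const true)
      (Poly.decide_lt (Poly.snd Poly.id) (Poly.fst (Poly.fst (Poly.fst (Poly.fst Poly.id)))))
  have h2 : Poly (fun p : (ℕ × Lbl) × List (Bool ⊕ ℕ) =>
      p.2.all (fun c => Sum.elim (fun _ => true) (fun i : ℕ => decide (i < p.1.1)) c)) :=
    NPC.Poly.all (p := fun (p : (ℕ × Lbl) × List (Bool ⊕ ℕ)) c =>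
      Sum.elim (fun _ => true) (fun i : ℕ => decide (i < p.1.1)) c) (Poly.snd Poly.id) h1
  refine (NPQ.sumElim (o := fun p : ℕ × Lbl => p.2)
    (g := fun p (i : ℕ) => decide (i < p.1))
    (h := fun p (l : List (Bool ⊕ ℕ)) =>
      l.all (fun c => Sum.elim (fun _ => true) (fun i : ℕ => decide (i < p.1)) c))
    (Poly.snd Poly.id) (Poly.decide_lt (Poly.snd Poly.id) (Poly.fst (Poly.fst Poly.id)))
    h2).congr fun a => ?_
  obtain ⟨n, i | l⟩ := a <;> rfl

/-- one step of the test -/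
def wst (n : ℕ) (q : Lbl × ℕ × ℕ) (s : ℕ × Bool) : ℕ × Bool :=
  (s.1 + 1, lokb n q.1 && (decide (q.2.1 < s.1 + 2) && (decide (q.2.2 < s.1 + 2) && s.2)))

theorem wst_fst (n : ℕ) (P : BP) : (P.foldr (wst n) (0, true)).1 = P.length := by
  induction P with
  | nil => rfl
  | cons q P ih => rw [List.foldr_cons, wst, ih, List.length_cons]

theorem wst_iff (n : ℕ) : ∀ P : BP, (P.foldr (wst n) (0, true)).2 = true ↔ WF n P
  | [] => by simp [WF]
  | q :: P => by
    rw [List.foldr_cons]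
    simp only [wst, wst_fst, Bool.and_eq_true, decide_eq_true_eq, wst_iff n P, lokb_iff]
    rfl

theorem poly_wst : Poly (fun p : (ℕ × BP) × (Lbl × ℕ × ℕ) × (ℕ × Bool) =>
    wst p.1.1 p.2.1 p.2.2) := by
  have en : Poly (fun p : (ℕ × BP) × (Lbl × ℕ × ℕ) × (ℕ × Bool) => p.1.1) :=
    Poly.fst (Poly.fst Poly.id)
  have eq : Poly (fun p : (ℕ × BP) × (Lbl × ℕ × ℕ) × (ℕ × Bool) => p.2.1) :=
    Poly.fst (Poly.snd Poly.id)
  have es : Poly (fun p : (ℕ × BP) × (Lbl × ℕ × ℕ) × (ℕ × Bool) => p.2.2) :=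
    Poly.snd (Poly.snd Poly.id)
  have em : Poly (fun p : (ℕ × BP) × (Lbl × ℕ × ℕ) × (ℕ × Bool) => p.2.2.1 + 2) :=
    Poly.add (Poly.fst es) (NPC.Poly.const 2)
  refine Poly.pair (Poly.succ (Poly.fst es)) (Poly.and ?_ (Poly.and ?_ (Poly.and ?_ (Poly.snd es))))
  · exact Poly.comp poly_lokb (Poly.pair en (Poly.fst eq))
  · exact Poly.decide_lt (Poly.fst (Poly.snd eq)) em
  · exact Poly.decide_lt (Poly.snd (Poly.snd eq)) em

theorem poly_wf : Poly (fun p : ℕ × BP => (p.2.foldr (wst p.1) (0, true)).2) := by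
  refine Poly.snd (NPC.Poly.foldr (l := fun p : ℕ × BP => p.2)
    (s := fun _ => ((0 : ℕ), true)) (F := fun p q s => wst p.1 q s) (Poly.snd Poly.id)
    (NPC.Poly.const _) poly_wst (Polynomial.C 4 * Polynomial.X + Polynomial.C 5) ?_)
  intro a k hk
  have h0 := wst_fst a.1 (a.2.drop k)
  set r := (a.2.drop k).foldr (wst a.1) (0, true) with hr
  have h1 := sz_nat_le r.1
  have h5 := Poly.size_le_self r.1
  have h6 := sz_bool_le r.2
  have h2 : (a.2.drop k).length ≤ a.2.length := by simp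
  have h3 := length_lt_sz a.2
  have h4 : sz a.2 ≤ sz a := by
    obtain ⟨u, v⟩ := a
    simp only [sz_pair]
    omega
  have h7 : Pool.Agent.NPC.sz r = Pool.Agent.NPC.sz r.1 + Pool.Agent.NPC.sz r.2 + 1 := by
    obtain ⟨u, v⟩ := r
    simp only [sz_pair]
  simp only [Polynomial.eval_add, Polynomial.eval_mul, Polynomial.eval_C, Polynomial.eval_X]
  change Pool.Agent.NPC.sz r ≤ _
  omega

theorem poly_lsz : Poly (fun p : BP × (Lbl × ℕ × ℕ) => lsz p.2.1) := by
  refine (NPQ.sumElim (o := fun p : BP × (Lbl × ℕ × ℕ) => p.2.1)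
    (g := fun _ (_ : ℕ) => (0 : ℕ)) (h := fun _ (l : List (Bool ⊕ ℕ)) => l.length)
    (Poly.fst (Poly.snd Poly.id)) (NPC.Poly.const _)
    (Poly.length (Poly.snd Poly.id))).congr fun a => ?_
  obtain ⟨P, i | l, j⟩ := a <;> rfl

theorem poly_bsize : Poly bsize := by
  refine Poly.add (Poly.add (Poly.length Poly.id) (NPC.Poly.const 2)) (Poly.sum ?_)
  exact NPC.Poly.map (F := fun (_ : BP) (q : Lbl × ℕ × ℕ) => lsz q.1) Poly.id poly_lsz

theorem task : Pool.Agent.W886.PM.S_BEV :=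
  ⟨vals_eq, poly_bq, poly_bev, ⟨_, poly_wf, wst_iff⟩, poly_bsize⟩

end Pool.Agent.W53.PMBEV
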