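import Pool.Agent.W258.P4.Cons

/-!
# Pate's inequality and the Bapat-Sunder eigenvalue statement for 4 x 4 matrices

For a complex positive semidefinite `4 × 4` matrix `A` let `M(A)` be the matrix with the entries
`a_ij per A(i|j)`. We show `v* M(A) v ≤ per A |v|²` for all vectors `v`, so that `per A` is the
largest eigenvalue of `M(A)`, and Pate's inequality for every pair of indices. Both follow from the
permanent-on-top theorem for `4 × 4` matrices (helper258 and others).
-/

set_option autoImplicit false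
open Matrix
open scoped ComplexOrder BigOperators

namespace Pool.Agent.W53.PateFour

/-- the permutations with `σ i = j` -/
theorem sum_fiber (n : ℕ) (A : Matrix (Fin (n + 1)) (Fin (n + 1)) ℂ) (i j : Fin (n + 1)) :
    ∑ σ : Equiv.Perm (Fin (n + 1)), (if σ i = j then ∏ t, A t (σ t) else 0) =
      A i j * (A.submatrix i.succAbove j.succAbove).permanent := by
  let E : Equiv.Perm (Fin (n + 1)) ≃ Option (Fin n) × Equiv.Perm (Fin n) :=
    (Equiv.equivCongr (finSuccEquiv' i) (finSuccEquiv' j)).trans Equiv.Perm.decomposeOption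
  have k1 : ∀ σ, (E σ).1 = finSuccEquiv' j (σ i) := by
    intro σ
    simp [E, Equiv.Perm.decomposeOption, Equiv.equivCongr]
  have k2 : ∀ p : Option (Fin n) × Equiv.Perm (Fin n), E.symm p i = j ↔ p.1 = none := by
    intro p
    have h := k1 (E.symm p)
    rw [Equiv.apply_symm_apply] at h
    rw [h]
    constructor
    · intro h1
      rw [h1]
      exact finSuccEquiv'_at j
    · intro h1
      apply (finSuccEquiv' j).injective
      rw [h1]
      exact (finSuccEquiv'_at j).symm
  have k3 : ∀ (τ : Equiv.Perm (Fin n)) (k : Fin n),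
      E.symm (none, τ) (i.succAbove k) = j.succAbove (τ k) := by
    intro τ k
    change (finSuccEquiv' j).symm
      (Equiv.Perm.decomposeOption.symm (none, τ) (finSuccEquiv' i (i.succAbove k))) = _
    rw [finSuccEquiv'_succAbove, Equiv.Perm.decomposeOption_symm_of_none_apply, Option.map_some,
      finSuccEquiv'_symm_some]
  rw [← Equiv.sum_comp E.symm, Fintype.sum_prod_type, Fintype.sum_option]
  have z : ∑ o : Fin n, ∑ τ : Equiv.Perm (Fin n),
      (if E.symm (some o, τ) i = j then ∏ t, A t (E.symm (some o, τ) t) else 0) = 0 := by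
    refine Finset.sum_eq_zero fun o _ => Finset.sum_eq_zero fun τ _ => ?_
    rw [if_neg]
    rw [k2]
    exact Option.some_ne_none o
  rw [z, add_zero, ← Matrix.permanent_transpose]
  unfold Matrix.permanent
  rw [Finset.mul_sum]
  refine Finset.sum_congr rfl fun τ _ => ?_
  have h0 : E.symm (none, τ) i = j := (k2 (none, τ)).2 rfl
  rw [if_pos h0, Fin.prod_univ_succAbove _ i, h0]
  congr 1
  refine Finset.prod_congr rfl fun k _ => ?_
  rw [k3]
  rfl

/-- the entries of `M(A)` -/
noncomputable def M (A : Matrix (Fin 4) (Fin 4) ℂ) (i j : Fin 4) : ℂ :=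
  A i j * (A.submatrix i.succAbove j.succAbove).permanent

theorem q31_eq (A : Matrix (Fin 4) (Fin 4) ℂ) (v : Fin 4 → ℂ) :
    Pool.W258.P4.Q31 A v = A.permanent * ∑ i, ((‖v i‖ ^ 2 : ℝ) : ℂ) -
      ∑ i, ∑ j, (starRingEnd ℂ) (v i) * M A i j * v j := by
  have h1 : ∀ σ : Equiv.Perm (Fin 4), Pool.W258.P4.pr A σ *
      ∑ i : Fin 4, (starRingEnd ℂ) (v i) * (v i - v (σ i)) =
      Pool.W258.P4.pr A σ * ∑ i, ((‖v i‖ ^ 2 : ℝ) : ℂ) -
        ∑ i, ∑ j, (starRingEnd ℂ) (v i) * (if σ i = j then ∏ t, A t (σ t) else 0) * v j := by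
    intro σ
    have h2 : ∀ i : Fin 4, (starRingEnd ℂ) (v i) * (v i - v (σ i)) =
        ((‖v i‖ ^ 2 : ℝ) : ℂ) - (starRingEnd ℂ) (v i) * v (σ i) := by
      intro i
      rw [mul_sub, mul_comm ((starRingEnd ℂ) (v i)) (v i), Complex.mul_conj,
        Complex.normSq_eq_norm_sq]
    have h3 : ∀ i : Fin 4, ∑ j, (starRingEnd ℂ) (v i) *
        (if σ i = j then ∏ t, A t (σ t) else 0) * v j =
        Pool.W258.P4.pr A σ * ((starRingEnd ℂ) (v i) * v (σ i)) := by
      intro i
      rw [Finset.sum_eq_single (σ i)]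
      · rw [if_pos rfl]
        unfold Pool.W258.P4.pr
        ring
      · intro j _ hj
        rw [if_neg (Ne.symm hj)]
        ring
      · intro h
        exact absurd (Finset.mem_univ _) h
    rw [Finset.sum_congr rfl fun i _ => h2 i, Finset.sum_congr rfl fun i _ => h3 i,
      Finset.sum_sub_distrib, mul_sub, ← Finset.mul_sum]
  unfold Pool.W258.P4.Q31
  rw [Finset.sum_congr rfl fun σ _ => h1 σ, Finset.sum_sub_distrib, ← Finset.sum_mul,
    ← Pool.W258.P4.permanent_eq_pr]
  congr 1
  rw [Finset.sum_comm]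
  refine Finset.sum_congr rfl fun i _ => ?_
  rw [Finset.sum_comm]
  refine Finset.sum_congr rfl fun j _ => ?_
  rw [← Finset.sum_mul, ← Finset.mul_sum, sum_fiber 3 A i j]
  rfl

/-- the quadratic form inequality -/
theorem quad (A : Matrix (Fin 4) (Fin 4) ℂ) (hA : A.PosSemidef) (v : Fin 4 → ℂ) :
    (∑ i, ∑ j, (starRingEnd ℂ) (v i) * M A i j * v j).re ≤ A.permanent.re * ∑ i, ‖v i‖ ^ 2 := by
  have h := Pool.W258.P4.q31_nonneg A hA v
  rw [q31_eq, Complex.sub_re] at h
  have h1 : (A.permanent * ∑ i, ((‖v i‖ ^ 2 : ℝ) : ℂ)).re = A.permanent.re * ∑ i, ‖v i‖ ^ 2 := by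
    rw [← Complex.ofReal_sum, Complex.re_mul_ofReal]
  rw [h1] at h
  linarith

/-- Bapat-Sunder's eigenvalue statement (quadratic form and eigenvalues) and Pate's inequality for
complex positive semidefinite `4 × 4` matrices -/
theorem result : ∀ A : Matrix (Fin 4) (Fin 4) ℂ, A.PosSemidef →
    (∀ v : Fin 4 → ℂ, (∑ i, ∑ j, (starRingEnd ℂ) (v i) *
        (A i j * (A.submatrix i.succAbove j.succAbove).permanent) * v j).re ≤
      A.permanent.re * ∑ i, ‖v i‖ ^ 2) ∧
    (∀ i j : Fin 4, i ≠ j →
      (A i i * (A.submatrix i.succAbove i.succAbove).permanent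
        - A i j * (A.submatrix i.succAbove j.succAbove).permanent
        - A j i * (A.submatrix j.succAbove i.succAbove).permanent
        + A j j * (A.submatrix j.succAbove j.succAbove).permanent).re ≤ 2 * A.permanent.re) := by
  intro A hA
  refine ⟨quad A hA, ?_⟩
  intro i j hij
  have h := quad A hA (fun k => if k = i then 1 else if k = j then -1 else 0)
  have e1 : ∑ k : Fin 4, ‖(if k = i then (1 : ℂ) else if k = j then -1 else 0)‖ ^ 2 = 2 := by
    rw [← Finset.add_sum_erase _ _ (Finset.mem_univ i),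
      ← Finset.add_sum_erase _ _ (Finset.mem_erase.2 ⟨hij.symm, Finset.mem_univ j⟩)]
    rw [Finset.sum_eq_zero]
    · rw [if_pos rfl, if_neg hij.symm, if_pos rfl]
      norm_num
    · intro k hk
      simp only [Finset.mem_erase, Finset.mem_univ, and_true] at hk
      rw [if_neg hk.2, if_neg hk.1]
      norm_num
  have e2 : ∀ F : Fin 4 → ℂ, ∑ k : Fin 4, F k *
      (if k = i then (1 : ℂ) else if k = j then -1 else 0) = F i - F j := by
    intro F
    rw [← Finset.add_sum_erase _ _ (Finset.mem_univ i),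
      ← Finset.add_sum_erase _ _ (Finset.mem_erase.2 ⟨hij.symm, Finset.mem_univ j⟩)]
    rw [Finset.sum_eq_zero]
    · rw [if_pos rfl, if_neg hij.symm, if_pos rfl]
      ring
    · intro k hk
      simp only [Finset.mem_erase, Finset.mem_univ, and_true] at hk
      rw [if_neg hk.2, if_neg hk.1, mul_zero]
  have e3 : ∀ k : Fin 4, (starRingEnd ℂ) (if k = i then (1 : ℂ) else if k = j then -1 else 0) =
      if k = i then (1 : ℂ) else if k = j then -1 else 0 := by
    intro k
    split_ifs <;> simp
  have e4 : ∑ k : Fin 4, ∑ l : Fin 4,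
      (starRingEnd ℂ) (if k = i then (1 : ℂ) else if k = j then -1 else 0) * M A k l *
        (if l = i then (1 : ℂ) else if l = j then -1 else 0) =
      M A i i - M A i j - M A j i + M A j j := by
    have e5 : ∀ k : Fin 4, ∑ l : Fin 4,
        (starRingEnd ℂ) (if k = i then (1 : ℂ) else if k = j then -1 else 0) * M A k l *
          (if l = i then (1 : ℂ) else if l = j then -1 else 0) =
        (M A k i - M A k j) * (if k = i then (1 : ℂ) else if k = j then -1 else 0) := by
      intro k
      rw [e2 (fun l => (starRingEnd ℂ) (if k = i then (1 : ℂ) else if k = j then -1 else 0) *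
        M A k l), e3]
      ring
    rw [Finset.sum_congr rfl fun k _ => e5 k, e2 (fun k => M A k i - M A k j)]
    ring
  rw [e1, e4] at h
  change (M A i i - M A i j - M A j i + M A j j).re ≤ _
  linarith

end Pool.Agent.W53.PateFour
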